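import Pool.Agent.H.MP_454c72_al.B

namespace Pool.Agent.Results.MP_454c72_al.Coprime

open Pool.Agent.H.MP_454c72_al

/-- `P n` and `P (n - k)` have no common complex root other than `-1`. -/
theorem result (n k : ℕ) (hk : 1 ≤ k) (hkn : k ≤ n) (z : ℂ) (h1 : P n z = 0)
    (h2 : P (n - k) z = 0) : z = -1 :=
  main (by omega) h1 h2

end Pool.Agent.Results.MP_454c72_al.Coprime
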